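import Pool.Agent.helper53.ORT.Spec

/-!
# Project ort, row E3: the vectors `X`
-/

set_option autoImplicit false

namespace Pool.Agent.ORT

open Module Pool.Agent.GS

theorem E3 (ug : URG_stmt) : E3_stmt := by
  intro F V _ _ _ _ _ B h2 hB ρ τ R x hR
  induction τ with
  | zero =>
    intro _
    exact ⟨fun i => i.elim0, ⟨fun i => i.elim0, fun i => i.elim0⟩, fun i => i.elim0,
      fun _ i => i.elim0, fun _ i => i.elim0⟩
  | succ τ ih =>
    intro hn
    obtain ⟨X, hX, hX1, hRX, hxX⟩ := ih (by omega)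
    have hRX' : Og B (Sum.elim R X) := hR.sum hB hX hRX
    have ha : Og B (fun i : Fin (ρ + τ) => Sum.elim R X (finSumFinEquiv.symm i)) :=
      hRX'.comp finSumFinEquiv.symm.injective
    obtain ⟨w, hw1, hw2, hw3⟩ := ug B h2 hB (ρ + τ) ρ _ x ha (by omega) 1 one_ne_zero
    have hwR : ∀ i, B w (R i) = 0 := fun i => by
      have h := hw1 (finSumFinEquiv (Sum.inl i))
      rwa [Equiv.symm_apply_apply, Sum.elim_inl] at h
    have hwX : ∀ i, B w (X i) = 0 := fun i => by
      have h := hw1 (finSumFinEquiv (Sum.inr i))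
      rwa [Equiv.symm_apply_apply, Sum.elim_inr] at h
    refine ⟨Fin.cons w X, ⟨?_, ?_⟩, ?_, ?_, ?_⟩
    · intro i j hij
      obtain rfl | ⟨i, rfl⟩ := Fin.eq_zero_or_eq_succ i
      · obtain rfl | ⟨j, rfl⟩ := Fin.eq_zero_or_eq_succ j
        · exact absurd rfl hij
        · rw [Fin.cons_zero, Fin.cons_succ]
          exact hwX j
      · obtain rfl | ⟨j, rfl⟩ := Fin.eq_zero_or_eq_succ j
        · rw [Fin.cons_zero, Fin.cons_succ, hB.symm]
          exact hwX i
        · rw [Fin.cons_succ, Fin.cons_succ]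
          exact hX.o i j fun h => hij (by rw [h])
    · intro i
      obtain rfl | ⟨i, rfl⟩ := Fin.eq_zero_or_eq_succ i
      · rw [Fin.cons_zero, hw3]
        exact one_ne_zero
      · rw [Fin.cons_succ]
        exact hX.n i
    · intro i
      obtain rfl | ⟨i, rfl⟩ := Fin.eq_zero_or_eq_succ i
      · rw [Fin.cons_zero, hw3]
      · rw [Fin.cons_succ]
        exact hX1 i
    · intro i i'
      obtain rfl | ⟨i', rfl⟩ := Fin.eq_zero_or_eq_succ i'
      · rw [Fin.cons_zero, hB.symm]
        exact hwR i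
      · rw [Fin.cons_succ]
        exact hRX i i'
    · intro i i'
      obtain rfl | ⟨i', rfl⟩ := Fin.eq_zero_or_eq_succ i'
      · rw [Fin.cons_zero, hB.symm]
        exact hw2 i
      · rw [Fin.cons_succ]
        exact hxX i i'

end Pool.Agent.ORT
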